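import Mathlib

/-!
# From rectangles to a hyperbolic window (block BOX of A')
-/

open Finset

set_option autoImplicit false

namespace Pool.Agent.AP

/-- the end points of the cells -/
private noncomputable def bd (ρ : ℝ) : ℕ → ℕ
  | 0 => 0
  | (i + 1) => ⌊ρ ^ i⌋₊

private theorem bd_mono {ρ : ℝ} (hρ : 1 < ρ) (i : ℕ) : bd ρ i ≤ bd ρ (i + 1) := by
  cases i with
  | zero => exact Nat.zero_le _
  | succ i => exact Nat.floor_mono (pow_le_pow_right₀ hρ.le (Nat.le_succ i))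

private theorem bd_up {ρ : ℝ} (hρ : 1 < ρ) (i : ℕ) : (bd ρ (i + 1) : ℝ) ≤ ρ ^ i :=
  Nat.floor_le (by positivity)

private theorem bd_low {ρ : ℝ} (hρ : 1 < ρ) (i : ℕ) : ρ ^ i < ρ * ((bd ρ i : ℝ) + 1) := by
  cases i with
  | zero =>
    simp only [bd, pow_zero, Nat.cast_zero, zero_add, mul_one]
    exact hρ
  | succ i =>
    rw [pow_succ']
    exact mul_lt_mul_of_pos_left (Nat.lt_floor_add_one _) (by linarith)

private theorem bd_short {ρ : ℝ} (hρ : 1 < ρ) (hρ2 : ρ ≤ 3 / 2) (i : ℕ) : bd ρ (i + 1) ≤ 2 * bd ρ i + 1 := by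
  have h1 := bd_up hρ i
  have h2 := bd_low hρ i
  have h3 : (bd ρ (i + 1) : ℝ) < 2 * bd ρ i + 2 := by
    have h0 : (0 : ℝ) ≤ bd ρ i := by positivity
    nlinarith
  have h4 : bd ρ (i + 1) < 2 * bd ρ i + 2 := by exact_mod_cast h3
  omega

private theorem sum_cells (B : ℕ → ℕ) (hB0 : B 0 = 0) (hB : ∀ i, B i ≤ B (i + 1)) (f : ℕ → ℝ) (K : ℕ) :
    ∑ n ∈ Ioc 0 (B K), f n = ∑ i ∈ range K, ∑ n ∈ Ioc (B i) (B (i + 1)), f n := by
  induction K with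
  | zero => simp [hB0]
  | succ K ih =>
    rw [Finset.sum_range_succ, ← ih]
    exact (Finset.sum_Ioc_consecutive f (Nat.zero_le _) (hB K)).symm

private theorem sum_zone (Z : Finset ℕ) (hZ : ∀ n ∈ Z, 1 ≤ n) (A : ℕ) (Dd : ℝ)
    (hD : ∀ n ∈ Z, ((n.divisors.card : ℕ) : ℝ) ≤ Dd) :
    ∑ l ∈ Ioc 0 A, ∑ m ∈ Ioc 0 A, (if l * m ∈ Z then (1 : ℝ) else 0) ≤ Z.card * Dd := by
  have h1 : ∀ l m : ℕ, (if l * m ∈ Z then (1 : ℝ) else 0) = ∑ n ∈ Z, if l * m = n then (1 : ℝ) else 0 := by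
    intro l m
    rw [Finset.sum_ite_eq]
  have h2 : ∑ l ∈ Ioc 0 A, ∑ m ∈ Ioc 0 A, (if l * m ∈ Z then (1 : ℝ) else 0)
      = ∑ n ∈ Z, ∑ l ∈ Ioc 0 A, ∑ m ∈ Ioc 0 A, if l * m = n then (1 : ℝ) else 0 := by
    simp only [h1]
    rw [Finset.sum_comm]
    rw [Finset.sum_comm (s := Z)]
    rw [Finset.sum_comm]
    refine Finset.sum_congr rfl fun l _ => ?_
    rw [Finset.sum_comm]
  rw [h2]
  have h3 : ∀ n ∈ Z, ∑ l ∈ Ioc 0 A, ∑ m ∈ Ioc 0 A, (if l * m = n then (1 : ℝ) else 0) ≤ Dd := by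
    intro n hn
    refine le_trans ?_ (hD n hn)
    have h4 : ∀ l ∈ Ioc 0 A, ∑ m ∈ Ioc 0 A, (if l * m = n then (1 : ℝ) else 0)
        ≤ if l ∈ n.divisors then (1 : ℝ) else 0 := by
      intro l hl
      have hl0 : 0 < l := (Finset.mem_Ioc.1 hl).1
      by_cases hd : l ∣ n
      · rw [if_pos (Nat.mem_divisors.2 ⟨hd, by have := hZ n hn; omega⟩)]
        obtain ⟨c, hc⟩ := hd
        have h5 : ∀ m : ℕ, (if l * m = n then (1 : ℝ) else 0) = if m = c then (1 : ℝ) else 0 := by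
          intro m
          have : l * m = n ↔ m = c := by
            rw [hc]
            exact ⟨fun h => Nat.eq_of_mul_eq_mul_left hl0 h, fun h => by rw [h]⟩
          simp only [this]
        simp only [h5]
        rw [Finset.sum_ite_eq']
        split_ifs <;> norm_num
      · have h5 : ∀ m : ℕ, (if l * m = n then (1 : ℝ) else 0) = 0 := by
          intro m
          rw [if_neg]
          rintro rfl
          exact hd (dvd_mul_right _ _)
        simp only [h5]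
        rw [Finset.sum_const_zero]
        split_ifs <;> norm_num
    refine (Finset.sum_le_sum h4).trans ?_
    rw [Finset.sum_ite_mem, Finset.sum_const, nsmul_eq_mul, mul_one]
    exact_mod_cast Finset.card_le_card Finset.inter_subset_right
  refine (Finset.sum_le_sum h3).trans ?_
  rw [Finset.sum_const, nsmul_eq_mul]

/-- the dyadic zone near the two ends of the window -/
private noncomputable def zone (ρ : ℝ) (N₀ N : ℕ) : Finset ℕ :=
  (Ioc N₀ N).filter fun n => (n : ℝ) < ρ ^ 2 * N₀ ∨ (N : ℝ) < ρ ^ 2 * n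

private theorem zone_card {J : ℕ} (hJ : 2 ≤ J) {N₀ N : ℕ} (hN : N₀ ≤ N) :
    ((zone (1 + 1 / J) N₀ N).card : ℝ) ≤ 5 * ((N : ℝ) / J + 1) := by
  have hJ2 : (2 : ℝ) ≤ J := by exact_mod_cast hJ
  have hJ0 : (0 : ℝ) < J := by linarith
  set ρ : ℝ := 1 + 1 / J with hρ
  have hρ1 : 1 < ρ := by
    have : 0 < 1 / (J : ℝ) := by positivity
    linarith
  have hsub : zone ρ N₀ N ⊆ Ioc N₀ ⌊ρ ^ 2 * N₀⌋₊ ∪ Ioc ⌊(N : ℝ) / ρ ^ 2⌋₊ N := by
    intro n hn
    unfold zone at hn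
    rw [Finset.mem_filter, Finset.mem_Ioc] at hn
    rw [Finset.mem_union, Finset.mem_Ioc, Finset.mem_Ioc]
    rcases hn.2 with h | h
    · exact Or.inl ⟨hn.1.1, Nat.le_floor h.le⟩
    · refine Or.inr ⟨?_, hn.1.2⟩
      rw [Nat.floor_lt (by positivity), div_lt_iff₀ (by positivity)]
      linarith
  have h1 := (Finset.card_le_card hsub).trans (Finset.card_union_le _ _)
  rw [Nat.card_Ioc, Nat.card_Ioc] at h1
  have h2 : ((⌊ρ ^ 2 * N₀⌋₊ - N₀ : ℕ) : ℝ) ≤ 5 / 2 * (N / J) := by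
    have hf : (⌊ρ ^ 2 * N₀⌋₊ : ℝ) ≤ ρ ^ 2 * N₀ := Nat.floor_le (by positivity)
    have hle : N₀ ≤ ⌊ρ ^ 2 * N₀⌋₊ := by
      apply Nat.le_floor
      have : (1 : ℝ) ≤ ρ ^ 2 := one_le_pow₀ hρ1.le
      have h0 : (0 : ℝ) ≤ N₀ := by positivity
      nlinarith
    rw [Nat.cast_sub hle]
    have e : ρ ^ 2 = 1 + 2 / J + 1 / J * (1 / J) := by rw [hρ]; ring
    have h3 : 1 / (J : ℝ) * (1 / J) ≤ 1 / J * (1 / 2) :=
      mul_le_mul_of_nonneg_left (one_div_le_one_div_of_le (by norm_num) hJ2) (by positivity)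
    have h4 : ρ ^ 2 - 1 ≤ 5 / 2 * (1 / J) := by
      rw [e]
      have : 2 / (J : ℝ) = 2 * (1 / J) := by ring
      rw [this]
      linarith
    have h5 : (N₀ : ℝ) ≤ N := by exact_mod_cast hN
    calc (⌊ρ ^ 2 * N₀⌋₊ : ℝ) - N₀ ≤ (ρ ^ 2 - 1) * N₀ := by linarith
      _ ≤ 5 / 2 * (1 / J) * N := mul_le_mul h4 h5 (by positivity) (by positivity)
      _ = 5 / 2 * (N / J) := by ring
  have h3 : ((N - ⌊(N : ℝ) / ρ ^ 2⌋₊ : ℕ) : ℝ) ≤ 2 * (N / J) + 1 := by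
    have hf : (N : ℝ) / ρ ^ 2 < ⌊(N : ℝ) / ρ ^ 2⌋₊ + 1 := Nat.lt_floor_add_one _
    have hle : ⌊(N : ℝ) / ρ ^ 2⌋₊ ≤ N := by
      apply Nat.floor_le_of_le
      rw [div_le_iff₀ (by positivity)]
      have : (1 : ℝ) ≤ ρ ^ 2 := one_le_pow₀ hρ1.le
      have h0 : (0 : ℝ) ≤ N := by positivity
      nlinarith
    rw [Nat.cast_sub hle]
    have h4 : (N : ℝ) * (1 - 2 / J) ≤ N / ρ ^ 2 := by
      rw [le_div_iff₀ (by positivity)]
      have h5 : (1 - 2 / J) * ρ ^ 2 ≤ 1 := by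
        have e : (1 - 2 / (J : ℝ)) * ρ ^ 2 = 1 - 3 * (1 / J) ^ 2 - 2 * (1 / J) ^ 3 := by rw [hρ]; ring
        rw [e]
        have : 0 < 1 / (J : ℝ) := by positivity
        have h6 : 0 < (1 / (J : ℝ)) ^ 2 := by positivity
        have h7 : 0 < (1 / (J : ℝ)) ^ 3 := by positivity
        linarith
      have h0 : (0 : ℝ) ≤ N := by positivity
      calc (N : ℝ) * (1 - 2 / J) * ρ ^ 2 = N * ((1 - 2 / J) * ρ ^ 2) := by ring
        _ ≤ (N : ℝ) * 1 := mul_le_mul_of_nonneg_left h5 h0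
        _ = (N : ℝ) := mul_one _
    have e : (N : ℝ) * (1 - 2 / J) = N - 2 * (N / J) := by ring
    linarith
  have h1' : ((zone ρ N₀ N).card : ℝ) ≤ ((⌊ρ ^ 2 * N₀⌋₊ - N₀ : ℕ) : ℝ) + ((N - ⌊(N : ℝ) / ρ ^ 2⌋₊ : ℕ) : ℝ) := by
    exact_mod_cast h1
  have h0 : 0 ≤ (N : ℝ) / J := by positivity
  linarith

/-- the window sum of a fixed pair of coefficients from its short rectangles -/
theorem box_fix : ∃ C : ℝ, 0 < C ∧ ∀ (F : ℤ → ℝ) (k : ℤ) (N₀ N J : ℕ) (E Fm Dd : ℝ) (α β : ℕ → ℝ), 2 ≤ J → J ≤ N → N₀ ≤ N → 0 ≤ E → 1 ≤ Dd →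
    (∀ n : ℕ, 1 ≤ n → n ≤ N → |F (n + k)| ≤ Fm) → (∀ n : ℕ, 1 ≤ n → n ≤ N → ((n.divisors.card : ℕ) : ℝ) ≤ Dd) → (∀ m, |α m| ≤ 1) → (∀ l, |β l| ≤ 1) →
    (∀ M L M₀ L₀ : ℕ, M * L ≤ N → M₀ ≤ M → L₀ ≤ L → M ≤ 2 * M₀ + 1 → L ≤ 2 * L₀ + 1 →
      |∑ m ∈ Finset.Ioc M₀ M, ∑ l ∈ Finset.Ioc L₀ L, α m * β l * F (m * l + k)| ≤ E) →
      |∑ l ∈ Finset.Icc 1 N, ∑ m ∈ Finset.Icc 1 N, β l * α m * (if N₀ < l * m ∧ l * m ≤ N then F ((l * m : ℕ) + k) else 0)| ≤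
        C * (J * Real.log N) ^ 2 * E + C * Fm * Dd * (N / J + 1) * (1 + Real.log N) := by
  refine ⟨9, by norm_num, ?_⟩
  intro F k N₀ N J E Fm Dd α β hJ hJN hN₀ hE hDd hF hD hα hβ hrec
  have hJ2 : (2 : ℝ) ≤ J := by exact_mod_cast hJ
  have hJ0 : (0 : ℝ) < J := by linarith
  have hN2 : 2 ≤ N := hJ.trans hJN
  have hN2r : (2 : ℝ) ≤ N := by exact_mod_cast hN2
  have hFm : 0 ≤ Fm := (abs_nonneg _).trans (hF 1 le_rfl (by omega))
  set ρ : ℝ := 1 + 1 / J with hρ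
  have hρ1 : 1 < ρ := by
    have : 0 < 1 / (J : ℝ) := by positivity
    linarith
  have hρ2 : ρ ≤ 3 / 2 := by
    have : 1 / (J : ℝ) ≤ 1 / 2 := one_div_le_one_div_of_le (by norm_num) hJ2
    linarith
  have hlogN : Real.log 2 ≤ Real.log N := Real.log_le_log (by norm_num) hN2r
  have hlog2 := Real.log_two_gt_d9
  have hlogN0 : 0 < Real.log N := by linarith
  -- the number of cells
  obtain ⟨K, hK1, hK2⟩ : ∃ K : ℕ, N ≤ bd ρ K ∧ (K : ℝ) ≤ 3 * (J * Real.log N) := by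
    refine ⟨⌈((J : ℝ) + 1) * Real.log N⌉₊ + 1, ?_, ?_⟩
    · apply Nat.le_floor
      have h1 : ((J : ℝ) + 1) * Real.log N ≤ (⌈((J : ℝ) + 1) * Real.log N⌉₊ : ℝ) := Nat.le_ceil _
      have h2 : 1 / ((J : ℝ) + 1) ≤ Real.log ρ := by
        have h3 := Real.one_sub_inv_le_log_of_pos (show 0 < ρ by linarith)
        have h4 : 1 - ρ⁻¹ = 1 / ((J : ℝ) + 1) := by
          rw [hρ]
          field_simp
          ring
        linarith
      have h3 : Real.log N ≤ (⌈((J : ℝ) + 1) * Real.log N⌉₊ : ℝ) * Real.log ρ := by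
        have h4 : Real.log N = ((J : ℝ) + 1) * Real.log N * (1 / ((J : ℝ) + 1)) := by field_simp
        calc Real.log N = ((J : ℝ) + 1) * Real.log N * (1 / ((J : ℝ) + 1)) := h4
          _ ≤ (⌈((J : ℝ) + 1) * Real.log N⌉₊ : ℝ) * Real.log ρ :=
            mul_le_mul h1 h2 (by positivity) (by positivity)
      rw [← Real.log_pow] at h3
      exact (Real.log_le_log_iff (by linarith) (by positivity)).1 h3
    · push_cast
      have h1 := Nat.ceil_lt_add_one (show 0 ≤ ((J : ℝ) + 1) * Real.log N by positivity)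
      have h2 : 2 ≤ 3 / 2 * (J * Real.log N) := by
        have : 2 * Real.log 2 ≤ J * Real.log N := mul_le_mul hJ2 hlogN (by linarith) hJ0.le
        linarith
      have h3 : ((J : ℝ) + 1) * Real.log N ≤ 3 / 2 * (J * Real.log N) := by
        have : ((J : ℝ) + 1) ≤ 3 / 2 * J := by linarith
        calc ((J : ℝ) + 1) * Real.log N ≤ 3 / 2 * J * Real.log N :=
              mul_le_mul_of_nonneg_right this hlogN0.le
          _ = _ := by ring
      linarith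
  set f : ℕ → ℕ → ℝ := fun l m => β l * α m * (if N₀ < l * m ∧ l * m ≤ N then F ((l * m : ℕ) + k) else 0)
    with hf
  have hf0 : ∀ l m : ℕ, N < l * m → f l m = 0 := by
    intro l m h
    simp only [hf]
    rw [if_neg (by omega), mul_zero]
  have hIcc : Finset.Icc 1 N = Finset.Ioc 0 N := by
    ext x
    rw [Finset.mem_Icc, Finset.mem_Ioc]
    omega
  have hext : ∑ l ∈ Finset.Icc 1 N, ∑ m ∈ Finset.Icc 1 N, f l m
      = ∑ l ∈ Ioc 0 (bd ρ K), ∑ m ∈ Ioc 0 (bd ρ K), f l m := by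
    rw [hIcc]
    have hsub : Ioc 0 N ⊆ Ioc 0 (bd ρ K) := Finset.Ioc_subset_Ioc_right hK1
    have e1 : ∀ l ∈ Ioc 0 (bd ρ K), ∑ m ∈ Ioc 0 N, f l m = ∑ m ∈ Ioc 0 (bd ρ K), f l m := by
      intro l hl
      apply Finset.sum_subset hsub
      intro m hm hm'
      rw [Finset.mem_Ioc] at hl hm hm'
      apply hf0
      have h1 : N < m := by omega
      calc N < m := h1
        _ = 1 * m := (one_mul m).symm
        _ ≤ l * m := Nat.mul_le_mul_right _ hl.1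
    rw [← Finset.sum_congr rfl e1]
    apply Finset.sum_subset hsub
    intro l hl hl'
    rw [Finset.mem_Ioc] at hl hl'
    apply Finset.sum_eq_zero
    intro m hm
    rw [Finset.mem_Ioc] at hm
    apply hf0
    have h1 : N < l := by omega
    calc N < l := h1
      _ = l * 1 := (mul_one l).symm
      _ ≤ l * m := Nat.mul_le_mul_left _ hm.1
  set g : ℕ → ℕ → ℝ := fun l m => Fm * (if l * m ∈ zone ρ N₀ N then (1 : ℝ) else 0) with hg
  have hg0 : ∀ l m, 0 ≤ g l m := by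
    intro l m
    simp only [hg]
    split_ifs <;> simp [hFm]
  have hcell : ∀ i j : ℕ, |∑ l ∈ Ioc (bd ρ i) (bd ρ (i + 1)), ∑ m ∈ Ioc (bd ρ j) (bd ρ (j + 1)), f l m|
      ≤ E + ∑ l ∈ Ioc (bd ρ i) (bd ρ (i + 1)), ∑ m ∈ Ioc (bd ρ j) (bd ρ (j + 1)), g l m := by
    intro i j
    have hG0 : 0 ≤ ∑ l ∈ Ioc (bd ρ i) (bd ρ (i + 1)), ∑ m ∈ Ioc (bd ρ j) (bd ρ (j + 1)), g l m :=
      Finset.sum_nonneg fun l _ => Finset.sum_nonneg fun m _ => hg0 l m
    by_cases hgood : N₀ < (bd ρ i + 1) * (bd ρ j + 1) ∧ bd ρ (i + 1) * bd ρ (j + 1) ≤ N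
    · have h1 := hrec (bd ρ (j + 1)) (bd ρ (i + 1)) (bd ρ j) (bd ρ i)
        (by rw [mul_comm]; exact hgood.2) (bd_mono hρ1 j) (bd_mono hρ1 i) (bd_short hρ1 hρ2 j)
        (bd_short hρ1 hρ2 i)
      have h2 : ∑ l ∈ Ioc (bd ρ i) (bd ρ (i + 1)), ∑ m ∈ Ioc (bd ρ j) (bd ρ (j + 1)), f l m
          = ∑ m ∈ Ioc (bd ρ j) (bd ρ (j + 1)), ∑ l ∈ Ioc (bd ρ i) (bd ρ (i + 1)),
            α m * β l * F (m * l + k) := by
        rw [Finset.sum_comm]
        refine Finset.sum_congr rfl fun m hm => Finset.sum_congr rfl fun l hl => ?_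
        rw [Finset.mem_Ioc] at hl hm
        simp only [hf]
        rw [if_pos ⟨hgood.1.trans_le (Nat.mul_le_mul hl.1 hm.1), (Nat.mul_le_mul hl.2 hm.2).trans hgood.2⟩]
        have : (((l * m : ℕ) : ℤ) + k) = (m * l + k : ℤ) := by push_cast; ring
        rw [this]
        ring
      rw [h2]
      linarith
    · have h1 : ∀ l ∈ Ioc (bd ρ i) (bd ρ (i + 1)), ∀ m ∈ Ioc (bd ρ j) (bd ρ (j + 1)), |f l m| ≤ g l m := by
        intro l hl m hm
        rw [Finset.mem_Ioc] at hl hm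
        by_cases hw : N₀ < l * m ∧ l * m ≤ N
        · have hlm : 1 ≤ l * m := by omega
          have hz : l * m ∈ zone ρ N₀ N := by
            unfold zone
            rw [Finset.mem_filter, Finset.mem_Ioc]
            refine ⟨hw, ?_⟩
            have hl1 : (l : ℝ) ≤ ρ ^ i := le_trans (by exact_mod_cast hl.2) (bd_up hρ1 i)
            have hm1 : (m : ℝ) ≤ ρ ^ j := le_trans (by exact_mod_cast hm.2) (bd_up hρ1 j)
            have hl2 : ρ ^ i < ρ * l := (bd_low hρ1 i).trans_le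
              (mul_le_mul_of_nonneg_left (by exact_mod_cast hl.1) (by linarith))
            have hm2 : ρ ^ j < ρ * m := (bd_low hρ1 j).trans_le
              (mul_le_mul_of_nonneg_left (by exact_mod_cast hm.1) (by linarith))
            rw [not_and_or, not_lt, not_le] at hgood
            rcases hgood with h | h
            · left
              have h' : ((bd ρ i : ℝ) + 1) * ((bd ρ j : ℝ) + 1) ≤ N₀ := by exact_mod_cast h
              push_cast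
              calc (l : ℝ) * m ≤ ρ ^ i * ρ ^ j := mul_le_mul hl1 hm1 (by positivity) (by positivity)
                _ < (ρ * ((bd ρ i : ℝ) + 1)) * (ρ * ((bd ρ j : ℝ) + 1)) :=
                  mul_lt_mul'' (bd_low hρ1 i) (bd_low hρ1 j) (by positivity) (by positivity)
                _ = ρ ^ 2 * (((bd ρ i : ℝ) + 1) * ((bd ρ j : ℝ) + 1)) := by ring
                _ ≤ ρ ^ 2 * N₀ := mul_le_mul_of_nonneg_left h' (by positivity)
            · right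
              have h' : (N : ℝ) < (bd ρ (i + 1) : ℝ) * (bd ρ (j + 1) : ℝ) := by exact_mod_cast h
              push_cast
              calc (N : ℝ) < (bd ρ (i + 1) : ℝ) * (bd ρ (j + 1) : ℝ) := h'
                _ ≤ ρ ^ i * ρ ^ j := mul_le_mul (bd_up hρ1 i) (bd_up hρ1 j) (by positivity) (by positivity)
                _ ≤ (ρ * l) * (ρ * m) := mul_le_mul hl2.le hm2.le (by positivity) (by positivity)
                _ = ρ ^ 2 * (l * m) := by ring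
          simp only [hf, hg]
          rw [if_pos hw, if_pos hz, mul_one, abs_mul, abs_mul]
          have h3 := hF (l * m) hlm hw.2
          have h4 : |β l| * |α m| ≤ 1 := mul_le_one₀ (hβ l) (abs_nonneg _) (hα m)
          calc |β l| * |α m| * |F (((l * m : ℕ) : ℤ) + k)| ≤ 1 * Fm :=
                mul_le_mul h4 h3 (abs_nonneg _) (by norm_num)
            _ = Fm := one_mul _
        · have : f l m = 0 := by
            simp only [hf]
            rw [if_neg hw, mul_zero]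
          rw [this, abs_zero]
          exact hg0 l m
      have h2 : |∑ l ∈ Ioc (bd ρ i) (bd ρ (i + 1)), ∑ m ∈ Ioc (bd ρ j) (bd ρ (j + 1)), f l m|
          ≤ ∑ l ∈ Ioc (bd ρ i) (bd ρ (i + 1)), ∑ m ∈ Ioc (bd ρ j) (bd ρ (j + 1)), g l m := by
        refine (Finset.abs_sum_le_sum_abs _ _).trans (Finset.sum_le_sum fun l hl => ?_)
        exact (Finset.abs_sum_le_sum_abs _ _).trans (Finset.sum_le_sum fun m hm => h1 l hl m hm)
      linarith
  have hdec : ∀ h : ℕ → ℕ → ℝ, ∑ l ∈ Ioc 0 (bd ρ K), ∑ m ∈ Ioc 0 (bd ρ K), h l m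
      = ∑ i ∈ range K, ∑ j ∈ range K, ∑ l ∈ Ioc (bd ρ i) (bd ρ (i + 1)),
        ∑ m ∈ Ioc (bd ρ j) (bd ρ (j + 1)), h l m := by
    intro h
    rw [sum_cells (bd ρ) rfl (bd_mono hρ1)]
    refine Finset.sum_congr rfl fun i _ => ?_
    symm
    rw [Finset.sum_comm]
    refine Finset.sum_congr rfl fun l _ => ?_
    exact (sum_cells (bd ρ) rfl (bd_mono hρ1) (fun m => h l m) K).symm
  have hmain : |∑ l ∈ Ioc 0 (bd ρ K), ∑ m ∈ Ioc 0 (bd ρ K), f l m|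
      ≤ K * K * E + ∑ l ∈ Ioc 0 (bd ρ K), ∑ m ∈ Ioc 0 (bd ρ K), g l m := by
    rw [hdec f, hdec g]
    refine (Finset.abs_sum_le_sum_abs _ _).trans ?_
    have h1 : ∀ i ∈ range K, |∑ j ∈ range K, ∑ l ∈ Ioc (bd ρ i) (bd ρ (i + 1)),
        ∑ m ∈ Ioc (bd ρ j) (bd ρ (j + 1)), f l m| ≤ ∑ j ∈ range K, (E + ∑ l ∈ Ioc (bd ρ i) (bd ρ (i + 1)),
        ∑ m ∈ Ioc (bd ρ j) (bd ρ (j + 1)), g l m) := fun i _ =>
      (Finset.abs_sum_le_sum_abs _ _).trans (Finset.sum_le_sum fun j _ => hcell i j)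
    refine (Finset.sum_le_sum h1).trans (le_of_eq ?_)
    simp only [Finset.sum_add_distrib, Finset.sum_const, Finset.card_range, nsmul_eq_mul]
    ring
  have hzone : ∑ l ∈ Ioc 0 (bd ρ K), ∑ m ∈ Ioc 0 (bd ρ K), g l m ≤ Fm * (5 * ((N : ℝ) / J + 1) * Dd) := by
    have h1 : ∑ l ∈ Ioc 0 (bd ρ K), ∑ m ∈ Ioc 0 (bd ρ K), g l m
        = Fm * ∑ l ∈ Ioc 0 (bd ρ K), ∑ m ∈ Ioc 0 (bd ρ K),
          (if l * m ∈ zone ρ N₀ N then (1 : ℝ) else 0) := by
      simp only [hg, Finset.mul_sum]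
    rw [h1]
    apply mul_le_mul_of_nonneg_left _ hFm
    refine (sum_zone _ (fun n hn => ?_) _ Dd (fun n hn => ?_)).trans ?_
    · unfold zone at hn
      rw [Finset.mem_filter, Finset.mem_Ioc] at hn
      omega
    · unfold zone at hn
      rw [Finset.mem_filter, Finset.mem_Ioc] at hn
      exact hD n (by omega) hn.1.2
    · exact mul_le_mul_of_nonneg_right (zone_card hJ hN₀) (by linarith)
  rw [hext]
  refine hmain.trans ?_
  have hKK : (K : ℝ) * K * E ≤ 9 * (J * Real.log N) ^ 2 * E := by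
    apply mul_le_mul_of_nonneg_right _ hE
    have hK0 : (0 : ℝ) ≤ K := by positivity
    calc (K : ℝ) * K ≤ (3 * (J * Real.log N)) * (3 * (J * Real.log N)) :=
          mul_le_mul hK2 hK2 hK0 (by positivity)
      _ = 9 * (J * Real.log N) ^ 2 := by ring
  have hlast : Fm * (5 * ((N : ℝ) / J + 1) * Dd) ≤ 9 * Fm * Dd * (N / J + 1) * (1 + Real.log N) := by
    have h0 : 0 ≤ Fm * Dd * ((N : ℝ) / J + 1) := by positivity
    have e1 : Fm * (5 * ((N : ℝ) / J + 1) * Dd) = 5 * (Fm * Dd * ((N : ℝ) / J + 1)) := by ring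
    have e2 : 9 * Fm * Dd * ((N : ℝ) / J + 1) * (1 + Real.log N)
        = 9 * (Fm * Dd * ((N : ℝ) / J + 1)) + 9 * (Fm * Dd * ((N : ℝ) / J + 1)) * Real.log N := by ring
    rw [e1, e2]
    have h1 : 0 ≤ 9 * (Fm * Dd * ((N : ℝ) / J + 1)) * Real.log N := by positivity
    linarith
  linarith

theorem box : ∃ C : ℝ, 0 < C ∧ ∀ (F : ℤ → ℝ) (k : ℤ) (N₀ N J : ℕ) (P : ℕ → Prop) (E Fm Dd : ℝ), 2 ≤ J → J ≤ N → N₀ ≤ N → 0 ≤ E → 1 ≤ Dd →
    (∀ n : ℕ, 1 ≤ n → n ≤ N → |F (n + k)| ≤ Fm) → (∀ n : ℕ, 1 ≤ n → n ≤ N → ((n.divisors.card : ℕ) : ℝ) ≤ Dd) →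
    (∀ (α β : ℕ → ℝ) (M L M₀ L₀ : ℕ), (∀ m, |α m| ≤ 1) → (∀ l, |β l| ≤ 1) → (∀ l, β l ≠ 0 → P l) → M * L ≤ N → M₀ ≤ M → L₀ ≤ L →
      |∑ m ∈ Finset.Ioc M₀ M, ∑ l ∈ Finset.Ioc L₀ L, α m * β l * F (m * l + k)| ≤ E) →
    ∀ (α β : ℕ → ℝ), (∀ m, |α m| ≤ 1) → (∀ l, |β l| ≤ 1) → (∀ l, β l ≠ 0 → P l) →
      |∑ l ∈ Finset.Icc 1 N, ∑ m ∈ Finset.Icc 1 N, β l * α m * (if N₀ < l * m ∧ l * m ≤ N then F ((l * m : ℕ) + k) else 0)| ≤
        C * (J * Real.log N) ^ 2 * E + C * Fm * Dd * (N / J + 1) * (1 + Real.log N) := by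
  obtain ⟨C, hC, h⟩ := box_fix
  refine ⟨C, hC, ?_⟩
  intro F k N₀ N J P E Fm Dd hJ hJN hN₀ hE hDd hF hD hrec α β hα hβ hP
  exact h F k N₀ N J E Fm Dd α β hJ hJN hN₀ hE hDd hF hD hα hβ
    (fun M L M₀ L₀ h1 h2 h3 _ _ => hrec α β M L M₀ L₀ hα hβ hP h1 h2 h3)

end Pool.Agent.AP
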