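import Mathlib

/-!
# An interval against hats (block UHb of A')
-/

open Finset

set_option autoImplicit false
set_option linter.unusedVariables false

namespace Pool.Agent.Helper4.AP

/-- blocks of length `Δ` -/
theorem sum_blocks (Δ : ℕ) (f : ℕ → ℝ) (j0 : ℕ) : ∀ j1 : ℕ, j0 ≤ j1 →
    ∑ j ∈ Ico j0 j1, ∑ a ∈ range Δ, f (j * Δ + a) = ∑ s ∈ Ico (j0 * Δ) (j1 * Δ), f s := by
  intro j1 h
  induction j1, h using Nat.le_induction with
  | base => simp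
  | succ j1 h ih =>
    rw [Finset.sum_Ico_succ_top h, ih, ← Finset.sum_Ico_consecutive f (Nat.mul_le_mul_right Δ h)
      (Nat.mul_le_mul_right Δ (Nat.le_succ j1)), Finset.sum_Ico_eq_sum_range f (j1 * Δ)]
    congr 2
    rw [Nat.succ_mul]
    congr 1
    omega

/-- one shift -/
theorem shift_count (u Δ : ℕ) (τ : ℤ) (j0 j1 a' : ℕ) (h : j0 ≤ j1) :
    ∑ j ∈ Ico j0 j1, ∑ a ∈ range Δ, (if (u : ℤ) ∣ (j : ℤ) * Δ + a - a' - τ then (1 : ℝ) else 0) =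
      (((Ico (((j0 * Δ : ℕ) : ℤ) - a') (((j1 * Δ : ℕ) : ℤ) - a')).filter (fun t => (u : ℤ) ∣ t - τ)).card : ℝ) := by
  have h1 := sum_blocks Δ (fun s => if (u : ℤ) ∣ (s : ℤ) - a' - τ then (1 : ℝ) else 0) j0 j1 h
  have h2 : ∑ j ∈ Ico j0 j1, ∑ a ∈ range Δ, (if (u : ℤ) ∣ (j : ℤ) * Δ + a - a' - τ then (1 : ℝ) else 0) =
      ∑ j ∈ Ico j0 j1, ∑ a ∈ range Δ, (if (u : ℤ) ∣ ((j * Δ + a : ℕ) : ℤ) - a' - τ then (1 : ℝ) else 0) := by
    refine Finset.sum_congr rfl fun j _ => Finset.sum_congr rfl fun a _ => ?_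
    push_cast
    rfl
  rw [h2, h1, Finset.card_filter]
  push_cast
  refine Finset.sum_nbij' (fun s : ℕ => (s : ℤ) - a') (fun t : ℤ => (t + a').toNat) ?_ ?_ ?_ ?_ ?_
  · intro s hs
    rw [Finset.mem_Ico] at hs ⊢
    have h3 : ((j0 * Δ : ℕ) : ℤ) ≤ s := by exact_mod_cast hs.1
    have h4 : (s : ℤ) < ((j1 * Δ : ℕ) : ℤ) := by exact_mod_cast hs.2
    push_cast at h3 h4
    constructor <;> linarith
  · intro t ht
    rw [Finset.mem_Ico] at ht ⊢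
    have h0 : (0 : ℤ) ≤ (j0 : ℤ) * Δ := by positivity
    have h3 : (0 : ℤ) ≤ t + a' := by linarith [ht.1]
    constructor
    · zify
      rw [Int.toNat_of_nonneg h3]
      linarith [ht.1]
    · zify
      rw [Int.toNat_of_nonneg h3]
      linarith [ht.2]
  · intro s hs
    simp
  · intro t ht
    rw [Finset.mem_Ico] at ht
    have h0 : (0 : ℤ) ≤ (j0 : ℤ) * Δ := by positivity
    have h3 : (0 : ℤ) ≤ t + a' := by linarith [ht.1]
    show (((t + a').toNat : ℤ)) - a' = t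
    rw [Int.toNat_of_nonneg h3]
    ring
  · intro s hs
    rfl

theorem card_diff {A B U : Finset ℤ} (h1 : A \ B ⊆ U) (h2 : B \ A ⊆ U) :
    |(A.card : ℝ) - B.card| ≤ U.card := by
  have h3 : A.card ≤ B.card + U.card := by
    calc A.card ≤ (B ∪ U).card := Finset.card_le_card (fun x hx => by
          by_cases hb : x ∈ B
          · exact Finset.mem_union_left _ hb
          · exact Finset.mem_union_right _ (h1 (Finset.mem_sdiff.2 ⟨hx, hb⟩)))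
      _ ≤ B.card + U.card := Finset.card_union_le _ _
  have h4 : B.card ≤ A.card + U.card := by
    calc B.card ≤ (A ∪ U).card := Finset.card_le_card (fun x hx => by
          by_cases hb : x ∈ A
          · exact Finset.mem_union_left _ hb
          · exact Finset.mem_union_right _ (h2 (Finset.mem_sdiff.2 ⟨hx, hb⟩)))
      _ ≤ A.card + U.card := Finset.card_union_le _ _
  have h5 : (A.card : ℝ) ≤ B.card + U.card := by exact_mod_cast h3
  have h6 : (B.card : ℝ) ≤ A.card + U.card := by exact_mod_cast h4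
  rw [abs_le]
  constructor <;> linarith

theorem ceil_facts (Δ : ℕ) (hΔ : 0 < Δ) (t0 t1 : ℕ) :
    t0 ≤ (t0 + Δ - 1) / Δ * Δ ∧ (t0 + Δ - 1) / Δ * Δ < t0 + Δ ∧ t1 / Δ * Δ ≤ t1 ∧ t1 < t1 / Δ * Δ + Δ := by
  have h1 := Nat.div_add_mod (t0 + Δ - 1) Δ
  have h2 := Nat.mod_lt (t0 + Δ - 1) hΔ
  have h3 := Nat.div_add_mod t1 Δ
  have h4 := Nat.mod_lt t1 hΔ
  rw [mul_comm] at h1 h3
  refine ⟨?_, ?_, ?_, ?_⟩ <;> omega

theorem cnt (u Δ : ℕ) (hΔ : 0 < Δ) (τ : ℤ) (t0 t1 : ℕ) (h01 : t0 ≤ t1) :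
    |(((Ico (t0 : ℤ) t1).filter (fun t => (u : ℤ) ∣ t - τ)).card : ℝ) -
      (1 / (Δ : ℝ)) * ∑ j ∈ Ico ((t0 + Δ - 1) / Δ) (t1 / Δ), ∑ a ∈ range Δ, ∑ a' ∈ range Δ,
        (if (u : ℤ) ∣ (j : ℤ) * Δ + a - a' - τ then (1 : ℝ) else 0)| ≤
      (((Ico ((t0 : ℤ) - Δ) (t0 + Δ) ∪ Ico ((t1 : ℤ) - 2 * Δ) t1).filter
        (fun t => (u : ℤ) ∣ t - τ)).card : ℝ) := by
  obtain ⟨c1, c2, c3, c4⟩ := ceil_facts Δ hΔ t0 t1
  set j0 := (t0 + Δ - 1) / Δ with hj0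
  set j1 := t1 / Δ with hj1
  have hΔr : (0 : ℝ) < Δ := by exact_mod_cast hΔ
  have d1 : (t0 : ℤ) ≤ ((j0 * Δ : ℕ) : ℤ) := by exact_mod_cast c1
  have d2 : ((j0 * Δ : ℕ) : ℤ) < t0 + Δ := by exact_mod_cast c2
  have d3 : ((j1 * Δ : ℕ) : ℤ) ≤ t1 := by exact_mod_cast c3
  have d4 : (t1 : ℤ) < ((j1 * Δ : ℕ) : ℤ) + Δ := by exact_mod_cast c4
  set U := (Ico ((t0 : ℤ) - Δ) (t0 + Δ) ∪ Ico ((t1 : ℤ) - 2 * Δ) t1).filter (fun t => (u : ℤ) ∣ t - τ) with hU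
  rcases le_total j0 j1 with hj | hj
  · have e1 : ∑ j ∈ Ico j0 j1, ∑ a ∈ range Δ, ∑ a' ∈ range Δ,
        (if (u : ℤ) ∣ (j : ℤ) * Δ + a - a' - τ then (1 : ℝ) else 0) =
        ∑ a' ∈ range Δ, (((Ico (((j0 * Δ : ℕ) : ℤ) - a') (((j1 * Δ : ℕ) : ℤ) - a')).filter
          (fun t => (u : ℤ) ∣ t - τ)).card : ℝ) := by
      have e2 : ∀ j ∈ Ico j0 j1, ∑ a ∈ range Δ, ∑ a' ∈ range Δ,
          (if (u : ℤ) ∣ (j : ℤ) * Δ + a - a' - τ then (1 : ℝ) else 0) =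
          ∑ a' ∈ range Δ, ∑ a ∈ range Δ, (if (u : ℤ) ∣ (j : ℤ) * Δ + a - a' - τ then (1 : ℝ) else 0) :=
        fun j _ => Finset.sum_comm
      rw [Finset.sum_congr rfl e2, Finset.sum_comm]
      exact Finset.sum_congr rfl fun a' _ => shift_count u Δ τ j0 j1 a' hj
    rw [e1]
    have e3 : (((Ico (t0 : ℤ) t1).filter (fun t => (u : ℤ) ∣ t - τ)).card : ℝ) -
        (1 / (Δ : ℝ)) * ∑ a' ∈ range Δ, (((Ico (((j0 * Δ : ℕ) : ℤ) - a') (((j1 * Δ : ℕ) : ℤ) - a')).filter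
          (fun t => (u : ℤ) ∣ t - τ)).card : ℝ) =
        (1 / (Δ : ℝ)) * ∑ a' ∈ range Δ, ((((Ico (t0 : ℤ) t1).filter (fun t => (u : ℤ) ∣ t - τ)).card : ℝ) -
          (((Ico (((j0 * Δ : ℕ) : ℤ) - a') (((j1 * Δ : ℕ) : ℤ) - a')).filter
            (fun t => (u : ℤ) ∣ t - τ)).card : ℝ)) := by
      rw [Finset.sum_sub_distrib, Finset.sum_const, Finset.card_range, nsmul_eq_mul, mul_sub]
      congr 1
      field_simp
    rw [e3, abs_mul, abs_of_pos (by positivity : (0 : ℝ) < 1 / (Δ : ℝ))]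
    have e4 : ∀ a' ∈ range Δ, |(((Ico (t0 : ℤ) t1).filter (fun t => (u : ℤ) ∣ t - τ)).card : ℝ) -
          (((Ico (((j0 * Δ : ℕ) : ℤ) - a') (((j1 * Δ : ℕ) : ℤ) - a')).filter
            (fun t => (u : ℤ) ∣ t - τ)).card : ℝ)| ≤ U.card := by
      intro a' ha'
      rw [Finset.mem_range] at ha'
      have ha : (a' : ℤ) < Δ := by exact_mod_cast ha'
      have ha0 : (0 : ℤ) ≤ a' := Int.natCast_nonneg _
      apply card_diff
      · intro t ht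
        rw [Finset.mem_sdiff, Finset.mem_filter, Finset.mem_filter, Finset.mem_Ico, Finset.mem_Ico] at ht
        obtain ⟨⟨⟨h1, h2⟩, h3⟩, h4⟩ := ht
        rw [hU, Finset.mem_filter, Finset.mem_union, Finset.mem_Ico, Finset.mem_Ico]
        refine ⟨?_, h3⟩
        by_cases h5 : t < ((j0 * Δ : ℕ) : ℤ) - a'
        · left
          constructor <;> linarith
        · right
          have h6 : ((j1 * Δ : ℕ) : ℤ) - a' ≤ t := by
            by_contra h7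
            exact h4 ⟨⟨not_lt.1 h5, not_le.1 h7⟩, h3⟩
          constructor <;> linarith
      · intro t ht
        rw [Finset.mem_sdiff, Finset.mem_filter, Finset.mem_filter, Finset.mem_Ico, Finset.mem_Ico] at ht
        obtain ⟨⟨⟨h1, h2⟩, h3⟩, h4⟩ := ht
        rw [hU, Finset.mem_filter, Finset.mem_union, Finset.mem_Ico, Finset.mem_Ico]
        refine ⟨?_, h3⟩
        left
        have h6 : t < t0 := by
          by_contra h7
          exact h4 ⟨⟨not_lt.1 h7, by linarith⟩, h3⟩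
        constructor <;> linarith
    have e5 : |∑ a' ∈ range Δ, ((((Ico (t0 : ℤ) t1).filter (fun t => (u : ℤ) ∣ t - τ)).card : ℝ) -
          (((Ico (((j0 * Δ : ℕ) : ℤ) - a') (((j1 * Δ : ℕ) : ℤ) - a')).filter
            (fun t => (u : ℤ) ∣ t - τ)).card : ℝ))| ≤ Δ * U.card := by
      refine (Finset.abs_sum_le_sum_abs _ _).trans ((Finset.sum_le_sum e4).trans (le_of_eq ?_))
      rw [Finset.sum_const, Finset.card_range, nsmul_eq_mul]
    calc (1 / (Δ : ℝ)) * _ ≤ (1 / (Δ : ℝ)) * (Δ * U.card) :=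
          mul_le_mul_of_nonneg_left e5 (by positivity)
      _ = U.card := by field_simp
  · have hemp : Ico j0 j1 = ∅ := Finset.Ico_eq_empty_of_le hj
    rw [hemp, Finset.sum_empty, mul_zero, sub_zero, abs_of_nonneg (by positivity)]
    have hsub : (Ico (t0 : ℤ) t1).filter (fun t => (u : ℤ) ∣ t - τ) ⊆ U := by
      intro t ht
      rw [Finset.mem_filter, Finset.mem_Ico] at ht
      rw [hU, Finset.mem_filter, Finset.mem_union, Finset.mem_Ico, Finset.mem_Ico]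
      refine ⟨?_, ht.2⟩
      have h1 : ((j1 * Δ : ℕ) : ℤ) ≤ ((j0 * Δ : ℕ) : ℤ) := by exact_mod_cast Nat.mul_le_mul_right Δ hj
      obtain ⟨⟨h2, h3⟩, -⟩ := ht
      by_cases h4 : t < t0 + Δ
      · left
        exact ⟨by linarith, h4⟩
      · right
        exact ⟨by linarith, h3⟩
    exact_mod_cast Finset.card_le_card hsub

theorem cnt_len (Δ : ℕ) (hΔ : 0 < Δ) (t0 t1 : ℕ) (h01 : t0 ≤ t1) :
    |((t1 : ℝ) - t0) - ((Ico ((t0 + Δ - 1) / Δ) (t1 / Δ)).card : ℝ) * Δ| ≤ 2 * Δ := by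
  obtain ⟨c1, c2, c3, c4⟩ := ceil_facts Δ hΔ t0 t1
  set j0 := (t0 + Δ - 1) / Δ with hj0
  set j1 := t1 / Δ with hj1
  have d1 : (t0 : ℝ) ≤ j0 * Δ := by exact_mod_cast c1
  have d2 : (j0 : ℝ) * Δ < t0 + Δ := by exact_mod_cast c2
  have d3 : (j1 : ℝ) * Δ ≤ t1 := by exact_mod_cast c3
  have d4 : (t1 : ℝ) < j1 * Δ + Δ := by exact_mod_cast c4
  have d5 : (t0 : ℝ) ≤ t1 := by exact_mod_cast h01
  have hΔr : (0 : ℝ) < Δ := by exact_mod_cast hΔ
  rw [Nat.card_Ico]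
  rcases le_total j0 j1 with hj | hj
  · rw [Nat.cast_sub hj, abs_le]
    constructor <;> nlinarith
  · rw [Nat.sub_eq_zero_of_le hj, Nat.cast_zero, zero_mul, sub_zero, abs_of_nonneg (by linarith)]
    have h1 : (j1 : ℝ) * Δ ≤ j0 * Δ := by exact_mod_cast Nat.mul_le_mul_right Δ hj
    linarith

end Pool.Agent.Helper4.AP
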